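import Pool.Agent.Helper93_SMZ.Final

/-!
# When do locally chain-bounded lattices have strictly monotone maps into the integers?

Exact answer for all classes of lattices which are closed under sublattices of powers (all
lattices, every variety, every quasivariety of lattices) and all cardinals `κ`, `μ`: every locally
chain-bounded member of coinitiality `κ` and cofinality `μ` has a strictly monotone map into `ℤ`
if and only if the class consists of modular lattices, or one of `κ`, `μ` is finite, or one of them
is `ℵ₀` and the other one is less than the bounding number. In all other cases the class contains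
a lattice with finite intervals, coinitiality `κ`, cofinality `μ` and `max κ μ` elements without
such a map; in particular every class with a nonmodular member contains one with `ℵ₁` elements.
-/

namespace Pool.Agent.Results.MP_df7fe8_co.ModularClasses

open Cardinal Pool.Agent.SMZ

universe u

theorem result :
    -- positive part, for all posets
    (∀ (P : Type u) [PartialOrder P], LocChainBdd P → GoodPair (coinit P) (cofin P) →
      HasIntMap P) ∧
    -- exact answer for classes of lattices
    (∀ K : (α : Type u) → [Lattice α] → Prop, PowerClosed K → ∀ κ μ : Cardinal.{u},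
      ((∀ (L : Type u) [Lattice L], K L → LocChainBdd L → coinit L = κ → cofin L = μ →
          HasIntMap L) ↔
        ((∀ (L : Type u) [Lattice L], K L → IsModularLattice L) ∨ GoodPair κ μ)) ∧
      (¬ ((∀ (L : Type u) [Lattice L], K L → IsModularLattice L) ∨ GoodPair κ μ) →
        ∃ (L : Type u) (_ : Lattice L), K L ∧ (∀ x y : L, (Set.Icc x y).Finite) ∧
          Cardinal.mk L = max κ μ ∧ coinit L = κ ∧ cofin L = μ ∧ ¬ HasIntMap L)) ∧
    -- every class with a nonmodular member contains a counterexample with `ℵ₁` elements
    (∀ K : (α : Type u) → [Lattice α] → Prop, PowerClosed K →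
      (¬ ∀ (L : Type u) [Lattice L], K L → IsModularLattice L) →
        ∃ (L : Type u) (_ : Lattice L), K L ∧ (∀ x y : L, (Set.Icc x y).Finite) ∧
          Cardinal.mk L = Cardinal.aleph 1 ∧ ¬ HasIntMap L) := by
  refine ⟨fun P _ hP h => pos_cardinals P hP h, ?_, ?_⟩
  · intro K hK κ μ
    refine ⟨classification hK κ μ, fun h => ?_⟩
    rw [not_or] at h
    exact counterexample hK κ μ h.2 h.1
  · intro K hK h
    obtain ⟨L, iL, a1, a2, a3, _, _, a4⟩ := counterexample hK _ _ not_goodPair_aleph_one h
    exact ⟨L, iL, a1, a2, by rw [a3, max_self], a4⟩

end Pool.Agent.Results.MP_df7fe8_co.ModularClasses
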