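import Pool.Agent.Helper5_DF7.Uni

/-!
# The chains into which all locally chain-bounded lattices have strictly monotone maps

For every class `K` of lattices which is closed under sublattices of powers (all lattices, every
variety and every quasivariety of lattices) the chains `C` are determined for which every locally
chain-bounded member of `K` has a strictly monotone map into `C`: these are the chains which
contain one of the three chains

* `ω ×ₗ ω*` (the sum of `ω` copies of the reversed chain `ω*`),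
* `ω* ×ₗ ω` (the sum of `ω*` copies of `ω`),
* `(ω²)* + ω²`,

and, if all members of `K` are modular, also those which contain the chain `ℤ`. The second part is
the version for a given coinitiality `κ` and cofinality `μ`; if one of them is `ℵ₀` (and also if
both are large), the answer is complete, with the two further chains `(ω²)* + ω` and `ω* + ω²`.
In all cases one member of `K` with finite intervals decides which chains are enough.
-/

set_option autoImplicit false

namespace Pool.Agent.Results.MP_df7fe8_co.UniversalChains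

open Cardinal Pool.Agent.SMZ

universe u v

theorem result (K : (α : Type u) → [Lattice α] → Prop) (hK : PowerClosed K)
    (hne : ∃ (M : Type u) (_ : Lattice M), K M ∧ Nontrivial M) :
    -- all locally chain-bounded members of `K`
    (∀ (C : Type v) [LinearOrder C],
      (∀ (L : Type u) [Lattice L], K L → LocChainBdd L → ∃ f : L → C, StrictMono f) ↔
        ((∃ g : ℕ ×ₗ ℕᵒᵈ → C, StrictMono g) ∨ (∃ g : ℕᵒᵈ ×ₗ ℕ → C, StrictMono g) ∨
          (∃ g : (ℕᵒᵈ ×ₗ ℕᵒᵈ) ⊕ₗ (ℕ ×ₗ ℕ) → C, StrictMono g) ∨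
          ((∀ (L : Type u) [Lattice L], K L → IsModularLattice L) ∧
            ∃ g : ℤ → C, StrictMono g))) ∧
    -- sums of copies of `ℤ` over a chain `J`
    (∀ (J : Type v) [LinearOrder J],
      (∀ (L : Type u) [Lattice L], K L → LocChainBdd L → ∃ f : L → J ×ₗ ℤ, StrictMono f) ↔
        (Infinite J ∨ (Nonempty J ∧ ∀ (L : Type u) [Lattice L], K L → IsModularLattice L))) ∧
    -- one member of `K` with finite intervals decides
    (∃ (L : Type u) (_ : Lattice L), K L ∧ (∀ x y : L, (Set.Icc x y).Finite) ∧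
      ∀ (C : Type v) [LinearOrder C], (∃ f : L → C, StrictMono f) →
        ∀ (L' : Type u) [Lattice L'], K L' → LocChainBdd L' → ∃ f : L' → C, StrictMono f) ∧
    -- the members of `K` with coinitiality `κ` and cofinality `μ`
    (∀ κ μ : Cardinal.{u}, ℵ₀ ≤ κ → ℵ₀ ≤ μ →
      (min κ μ = ℵ₀ ∨ (bnum.{u} ≤ min κ μ ∧ 2 ^ bnum.{u} ≤ max κ μ)) →
      (∀ (C : Type v) [LinearOrder C],
        (∀ (L : Type u) [Lattice L], K L → LocChainBdd L → coinit L = κ → cofin L = μ →
            ∃ f : L → C, StrictMono f) ↔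
          ((∃ g : ℕ ×ₗ ℕᵒᵈ → C, StrictMono g) ∨ (∃ g : ℕᵒᵈ ×ₗ ℕ → C, StrictMono g) ∨
            (∃ g : (ℕᵒᵈ ×ₗ ℕᵒᵈ) ⊕ₗ (ℕ ×ₗ ℕ) → C, StrictMono g) ∨
            (κ = ℵ₀ ∧ ∃ g : (ℕᵒᵈ ×ₗ ℕᵒᵈ) ⊕ₗ ℕ → C, StrictMono g) ∨
            (μ = ℵ₀ ∧ ∃ g : ℕᵒᵈ ⊕ₗ (ℕ ×ₗ ℕ) → C, StrictMono g) ∨
            (((∀ (L : Type u) [Lattice L], K L → IsModularLattice L) ∨ max κ μ < bnum.{u}) ∧
              ∃ g : ℤ → C, StrictMono g))) ∧
      (∃ (L : Type u) (_ : Lattice L), K L ∧ (∀ x y : L, (Set.Icc x y).Finite) ∧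
        coinit L = κ ∧ cofin L = μ ∧
        ∀ (C : Type v) [LinearOrder C], (∃ f : L → C, StrictMono f) →
          ∀ (L' : Type u) [Lattice L'], K L' → LocChainBdd L' → coinit L' = κ → cofin L' = μ →
            ∃ f : L' → C, StrictMono f)) := by
  obtain ⟨L, iL, a0, a1, a2⟩ := Helper5_DF7.neg_free.{u, v} K hK hne
  refine ⟨fun C _ => ⟨fun h => ?_, fun h L' _ b0 b1 => ?_⟩,
    fun J _ => Helper5_DF7.copies K hK hne J, ⟨L, iL, a0, a1, ?_⟩, ?_⟩
  · obtain ⟨f, hf⟩ := h L a0 (locChainBdd_of_finite a1)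
    exact a2 C f hf
  · exact Helper5_DF7.pos_free K C h L' b0 b1
  · rintro C _ ⟨f, hf⟩ L' _ b0 b1
    exact Helper5_DF7.pos_free K C (a2 C f hf) L' b0 b1
  · intro κ μ hκ hμ h
    obtain ⟨L, iL, a0, a1, a2, a3, a4⟩ := Helper5_DF7.neg_all.{u, v} K hK hne hκ hμ h
    refine ⟨fun C _ => ⟨fun h' => ?_, fun h' L' _ b0 b1 b2 b3 => ?_⟩,
      ⟨L, iL, a0, a1, a2, a3, ?_⟩⟩
    · obtain ⟨f, hf⟩ := h' L a0 (locChainBdd_of_finite a1) a2 a3
      exact a4 C f hf
    · exact Helper5_DF7.pos_all K h C h' L' b0 b1 b2 b3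
    · rintro C _ ⟨f, hf⟩ L' _ b0 b1 b2 b3
      exact Helper5_DF7.pos_all K h C (a4 C f hf) L' b0 b1 b2 b3

end Pool.Agent.Results.MP_df7fe8_co.UniversalChains
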